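import Pool.Agent.Lib_helper53.OW.Fin

/-!
MP_5ababd (helper53, block B6): Ore's full table. Upper bounds for every `n`, existence of critical
graphs, and the values and the recursion from the lower bound with Ore's table.
-/

set_option autoImplicit false
set_option linter.unusedSectionVars false

open scoped Classical
open Finset
open Pool.Agent.O2 (PC Cb CrOn pr)
open Pool.Agent.Ore (Good Crit IsCritical fmin good_complete good_family good_family_one iter_haj)

namespace Pool.Agent.OX53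

/-- Ore's table -/
def vO (K p : ℕ) : ℤ := if p = 0 then (K : ℤ) - 1 else (p : ℤ) * p - K * p + K + 1

/-- Ore's bound for `df` -/
def bO (K m : ℕ) : ℤ := 2 * ((m / K : ℕ) : ℤ) + vO K (m % K)

theorem bO_add (K m : ℕ) (hK : 1 ≤ K) : bO K (m + K) = bO K m + 2 := by
  unfold bO
  rw [Nat.add_mod_right, Nat.add_div_right _ (by omega)]
  push_cast
  ring

/-- the numbers of vertices for which there are critical graphs -/
def Okn (K n : ℕ) : Prop := n = K + 1 ∨ K + 3 ≤ n

theorem good_all {K : ℕ} (hK : 3 ≤ K) {n : ℕ} (hn : Okn K n) :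
    ∃ e : ℕ, Good K n e ∧ (e : ℤ) = ((K : ℤ) + 1) * n - bO K (n - 1) := by
  have hn1 : 1 ≤ n := by rcases hn with h | h <;> omega
  have hb0 : bO K (n - 1) = 2 * (((n - 1) / K : ℕ) : ℤ) + vO K ((n - 1) % K) := rfl
  have hdm0 : n - 1 = K * ((n - 1) / K) + (n - 1) % K := (Nat.div_add_mod (n - 1) K).symm
  have hpK0 : (n - 1) % K < K := Nat.mod_lt _ (by omega)
  obtain ⟨q, hq⟩ : ∃ q, (n - 1) / K = q := ⟨_, rfl⟩
  obtain ⟨p, hp⟩ : ∃ p, (n - 1) % K = p := ⟨_, rfl⟩
  rw [hq, hp] at hb0 hdm0
  rw [hp] at hpK0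
  have hnq : n = K * q + p + 1 := by omega
  have hq1 : 1 ≤ q := by
    by_contra h0
    have h1 : q = 0 := by omega
    rw [h1, Nat.mul_zero] at hnq
    rcases hn with h | h <;> omega
  obtain ⟨j, hj⟩ : ∃ j, q = j + 1 := ⟨q - 1, by omega⟩
  rw [hb0]
  by_cases hp0 : p = 0
  · obtain ⟨e, h1, h2⟩ := iter_haj (by omega) (good_complete K (by omega)) j
    have e1 : K + 1 + j * K = n := by rw [hnq, hp0, hj]; ring
    rw [e1] at h1
    refine ⟨e, h1, ?_⟩
    rw [h2, hp0, vO, if_pos rfl, ← e1, hj]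
    push_cast
    ring
  · by_cases hp1 : p = 1
    · have hq2 : 2 ≤ q := by
        by_contra h0
        have h1 : q = 1 := by omega
        rw [h1, Nat.mul_one, hp1] at hnq
        rcases hn with h | h <;> omega
      obtain ⟨e, h1, h2⟩ := good_family_one hK q hq2
      have e1 : K * q + 2 = n := by rw [hnq, hp1]
      refine ⟨e, by rw [← e1]; exact h1, ?_⟩
      rw [h2, hp1, vO, if_neg (by decide), ← e1]
      push_cast
      ring
    · obtain ⟨a, ha⟩ : ∃ a, K = p + a := ⟨K - p, by omega⟩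
      obtain ⟨e, h1, h2⟩ := good_family p a j (by omega)
      have e1 : 2 * p + 1 + a + j * (p + a) = n := by rw [hnq, hj, ha]; ring
      rw [e1, ← ha] at h1 h2
      refine ⟨e, h1, ?_⟩
      rw [h2, vO, if_neg hp0, ← e1, hj, ha]
      push_cast
      ring

theorem exists_iff {K : ℕ} (hK : 3 ≤ K) (n : ℕ) :
    (∃ G : SimpleGraph (Fin n), IsCritical (K + 1) G) ↔ Okn K n := by
  constructor
  · rintro ⟨G, hG⟩
    have hne : Nonempty (Fin n) := by
      by_contra hempty
      rw [not_nonempty_iff] at hempty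
      have h3 : G.Colorable 0 := ⟨SimpleGraph.Coloring.mk (fun v => (hempty.false v).elim)
        (fun {v} => (hempty.false v).elim)⟩
      have h4 := SimpleGraph.chromaticNumber_le_iff_colorable.2 h3
      rw [hG.1] at h4
      have : K + 1 ≤ 0 := by exact_mod_cast h4
      omega
    have hc := (Pool.Agent.Ore.isCritical_iff G (by omega)).1 hG
    have h1 := Pool.Agent.Ore.card_ge G hc
    rw [Fintype.card_fin] at h1
    have h2 : n ≠ K + 2 := fun h => Pool.Agent.Ore.no_succ G (by rw [Fintype.card_fin, h]) hc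
    unfold Okn
    omega
  · intro hn
    obtain ⟨e, ⟨V, hV, G0, v, w, hcard, hpr, hcrit, -, -⟩, -⟩ := good_all hK hn
    obtain ⟨G, hG, -⟩ := Pool.Agent.Ore.transport G0 hcard hcrit
    have hne : Nonempty (Fin n) := ⟨⟨0, by rcases hn with h | h <;> omega⟩⟩
    exact ⟨G, (Pool.Agent.Ore.isCritical_iff G (by omega)).2 hG⟩

/-- Ore's lower bound determines everything -/
theorem value_all {K : ℕ} (hK : 3 ≤ K)
    (h : ∀ (V : Type) (G : SimpleGraph V) (S : Finset V), CrOn G S K →
      Pool.Agent.OW.df G K S ≤ bO K (S.card - 1)) {n : ℕ} (hn : Okn K n) :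
    2 * (fmin (K + 1) n : ℤ) = ((K : ℤ) + 1) * n - bO K (n - 1) := by
  refine (Pool.Agent.OW.value (by omega) (by rcases hn with h | h <;> omega) (good_all hK hn)
    ?_).2
  intro G hG
  have h1 := h (Fin n) G univ hG
  unfold Pool.Agent.OW.df at h1
  rw [card_univ, Fintype.card_fin] at h1
  linarith

theorem rec_all {K : ℕ} (hK : 3 ≤ K)
    (h : ∀ (V : Type) (G : SimpleGraph V) (S : Finset V), CrOn G S K →
      Pool.Agent.OW.df G K S ≤ bO K (S.card - 1)) {n : ℕ} (hn : Okn K n) :
    2 * (fmin (K + 1) (n + K) : ℤ) = 2 * (fmin (K + 1) n : ℤ) + ((K : ℤ) - 1) * (K + 2) := by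
  have hn1 : 1 ≤ n := by rcases hn with h | h <;> omega
  have hn' : Okn K (n + K) := Or.inr (by rcases hn with h | h <;> omega)
  rw [value_all hK h hn, value_all hK h hn']
  have e1 : n + K - 1 = (n - 1) + K := by omega
  rw [e1, bO_add K _ (by omega)]
  push_cast
  ring

end Pool.Agent.OX53
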