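import Pool.Agent.Lib_helper53.OX.Full
import Pool.Agent.Lib_helper28.OW.G5n

/-!
MP_5ababd (helper53, block B6): the statements of the hand-ins, from the lower bound with Ore's
table: general `k` and `k = 6`.
-/

set_option autoImplicit false
set_option linter.unusedSectionVars false

open scoped Classical
open Finset
open Pool.Agent.O2 (PC Cb CrOn pr)
open Pool.Agent.Ore (Good Crit IsCritical fmin)

namespace Pool.Agent.OX53

/-- general `k` -/
theorem final_full {k : ℕ} (hk : 4 ≤ k)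
    (h : ∀ (V : Type) (G : SimpleGraph V) (S : Finset V), CrOn G S (k - 1) →
      Pool.Agent.OW.df G (k - 1) S ≤ bO (k - 1) (S.card - 1)) (n : ℕ) :
    ((∃ G : SimpleGraph (Fin n), IsCritical k G) ↔ n = k ∨ k + 2 ≤ n) ∧
      (n = k ∨ k + 2 ≤ n →
        2 * (fmin k n : ℤ) = (k : ℤ) * n - bO (k - 1) (n - 1) ∧
        2 * (fmin k (n + (k - 1)) : ℤ) = 2 * (fmin k n : ℤ) + ((k : ℤ) - 2) * (k + 1)) := by
  obtain ⟨K, rfl⟩ : ∃ K, k = K + 1 := ⟨k - 1, by omega⟩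
  have e0 : K + 1 - 1 = K := by omega
  rw [e0] at h ⊢
  have hK : 3 ≤ K := by omega
  refine ⟨(exists_iff hK n).trans (by unfold Okn; omega), fun hn => ?_⟩
  have hn' : Okn K n := by unfold Okn; omega
  refine ⟨?_, ?_⟩
  · rw [value_all hK h hn']
    push_cast
    ring
  · rw [rec_all hK h hn']
    push_cast
    ring

theorem b5_eq (m : ℕ) : Pool.Agent.OW28G.b5 m = bO 5 m := by
  unfold Pool.Agent.OW28G.b5 bO Pool.Agent.OW28G.v5 vO
  have h : m % 5 < 5 := Nat.mod_lt _ (by norm_num)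
  interval_cases m % 5 <;> simp

/-- the correction term for `k = 6` -/
def c6 (n : ℕ) : ℕ := if n % 5 = 1 then 2 else if n % 5 = 0 ∨ n % 5 = 2 then 1 else 0

theorem b5_c6 {n : ℕ} (hn : 1 ≤ n) :
    Pool.Agent.OW28G.b5 (n - 1) = 2 * (((n - 1) / 5 : ℕ) : ℤ) + 2 * (c6 n : ℤ) := by
  unfold Pool.Agent.OW28G.b5 Pool.Agent.OW28G.v5 c6
  split_ifs <;> omega

/-- `k = 6`, all `n` -/
theorem final_six
    (h : ∀ (V : Type) (G : SimpleGraph V) (S : Finset V), CrOn G S 5 →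
      Pool.Agent.OW.df G 5 S ≤ Pool.Agent.OW28G.b5 (S.card - 1)) :
    (∀ n : ℕ, (∃ G : SimpleGraph (Fin n), IsCritical 6 G) ↔ n = 6 ∨ 8 ≤ n) ∧
      ∀ n : ℕ, n = 6 ∨ 8 ≤ n →
        fmin 6 n + (n - 1) / 5 + c6 n = 3 * n ∧ fmin 6 (n + 5) = fmin 6 n + 14 := by
  have h' : ∀ (V : Type) (G : SimpleGraph V) (S : Finset V), CrOn G S (6 - 1) →
      Pool.Agent.OW.df G (6 - 1) S ≤ bO (6 - 1) (S.card - 1) := by
    intro V G S hS
    have h1 := h V G S hS
    rw [b5_eq] at h1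
    exact h1
  refine ⟨fun n => (final_full (by norm_num) h' n).1, fun n hn => ?_⟩
  obtain ⟨h1, h2⟩ := (final_full (by norm_num) h' n).2 hn
  have h3 : bO (6 - 1) (n - 1) = Pool.Agent.OW28G.b5 (n - 1) := (b5_eq (n - 1)).symm
  rw [h3, b5_c6 (by omega)] at h1
  have e2 : n + (6 - 1) = n + 5 := rfl
  rw [e2] at h2
  push_cast at h1 h2
  refine ⟨?_, ?_⟩
  · have : ((fmin 6 n + (n - 1) / 5 + c6 n : ℕ) : ℤ) = ((3 * n : ℕ) : ℤ) := by
      push_cast
      linarith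
    exact_mod_cast this
  · have : ((fmin 6 (n + 5) : ℕ) : ℤ) = ((fmin 6 n + 14 : ℕ) : ℤ) := by
      push_cast
      linarith
    exact_mod_cast this

end Pool.Agent.OX53
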